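import Pool.Agent.Q35.GR.Ex5

set_option autoImplicit false

/-!
# MP_4a09cd_ag: a component of the singular locus of a coisotropic variety can fail to be coisotropic

In `Gr(1, P^6)` let `S` be the closure of the set of lines in the hyperplane `x_6 = 0` which lie in
the hypersurface `a² p = b³`, where `p = p_{01}`, `a = p_{21} + p_{03}`, `b = p_{41} + p_{05}` in
Plücker coordinates. Then `S` is coisotropic, and the closure `Z` of `{a = b = 0}` is a component of
its singular locus, which is not coisotropic.
-/

namespace Pool.Agent.Results.MP_4a09cd_ag.SingularComponent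

open Pool.Agent.Q35.GR

theorem result (K : Type*) [Field K] [IsAlgClosed K] [CharZero K] :
    ∃ S Z : Set (Matrix (Fin 2) (Fin 7) K),
      IsVariety S ∧ Coisotropic S ∧ IsComponent Z (Sing S) ∧ ¬ Coisotropic Z := by
  exact ⟨clo (S0 K), clo (Z0 K), isVariety_S, coisotropic_S, isComponent_Z, not_coisotropic_Z⟩

end Pool.Agent.Results.MP_4a09cd_ag.SingularComponent
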